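import Pool.Agent.Helper96.CT.Stmts2

/-! # Row EM -/

set_option autoImplicit false

namespace Pool.Agent.Helper90.CT

open SimpleGraph Pool.Agent.Helper96.CT

theorem st_EM (h1 : ST_PQ) (h2 : ST_GR) : ST_EM := by
  classical
  intro W V _ T F H hT hst hMD x hx y hy z hz hxy hnxy hxz hzy
  obtain ⟨p, p', q, hpp', hp'q, hpq, hleaf, w0, hw0, hw0'⟩ := h1 W T hT hst
  have hnpq : ¬ T.Adj p q := by
    intro h
    have h3 : q ≠ p' := hp'q.ne'
    have h4 := hleaf q h h3 p' hp'q.symm
    exact hpp'.ne h4.symm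
  -- leaves
  set Lf : Finset W := Finset.univ.filter (fun w => T.Adj p w ∧ w ≠ p') with hLf
  set A : Finset W := Finset.univ \ Lf with hA
  set S : Finset W := {p, p', q} with hS
  have mL : ∀ w, w ∈ Lf ↔ T.Adj p w ∧ w ≠ p' := fun w => by simp [hLf]
  have mA : ∀ w, w ∈ A ↔ w ∉ Lf := fun w => by simp [hA]
  have hpA : p ∈ A := by
    rw [mA, mL]
    exact fun h => T.loopless.irrefl p h.1
  have hp'A : p' ∈ A := by
    rw [mA, mL]
    exact fun h => h.2 rfl
  have hqA : q ∈ A := by
    rw [mA, mL]
    exact fun h => hnpq h.1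
  have hSA : S ⊆ A := by
    intro w hw
    simp only [hS, Finset.mem_insert, Finset.mem_singleton] at hw
    rcases hw with rfl | rfl | rfl
    · exact hpA
    · exact hp'A
    · exact hqA
  have hcard : A.card + Lf.card = Fintype.card W := by
    rw [hA, Finset.card_sdiff_add_card_eq_card (Finset.subset_univ _), Finset.card_univ]
  have hLpos : 0 < Lf.card := Finset.card_pos.2 ⟨w0, (mL w0).2 ⟨hw0, hw0'⟩⟩
  have hApos : 0 < A.card := Finset.card_pos.2 ⟨p, hpA⟩
  have hA1 : A.card ≤ Fintype.card W - 2 + 1 := by omega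
  -- connectivity of `S`
  have hcS : (T.induce (S : Set W)).Connected := by
    have hpS : p ∈ (S : Set W) := by simp [hS]
    have hp'S : p' ∈ (S : Set W) := by simp [hS]
    have hqS : q ∈ (S : Set W) := by simp [hS]
    have key : ∀ w : (S : Set W), (T.induce (S : Set W)).Reachable w ⟨p', hp'S⟩ := by
      rintro ⟨w, hw⟩
      have hw2 := hw
      simp only [hS, Finset.coe_insert, Finset.coe_singleton, Set.mem_insert_iff,
        Set.mem_singleton_iff] at hw2
      rcases hw2 with rfl | rfl | rfl
      · exact Adj.reachable (show (T.induce (S : Set W)).Adj ⟨_, hw⟩ ⟨p', hp'S⟩ from hpp')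
      · exact Reachable.refl _
      · exact Adj.reachable (show (T.induce (S : Set W)).Adj ⟨_, hw⟩ ⟨p', hp'S⟩ from hp'q.symm)
    have : Nonempty (S : Set W) := ⟨⟨p', hp'S⟩⟩
    exact ⟨fun u v => (key u).trans (key v).symm⟩
  -- connectivity of `A`
  have hcA : (T.induce (A : Set W)).Connected := by
    let f : W → (A : Set W) := fun w => if h : w ∈ A then ⟨w, h⟩ else ⟨p, hpA⟩
    have hf : ∀ w (h : w ∈ A), f w = ⟨w, h⟩ := fun w h => dif_pos h
    have hf' : ∀ w, w ∉ A → f w = ⟨p, hpA⟩ := fun w h => dif_neg h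
    have step : ∀ u w, T.Adj u w → (T.induce (A : Set W)).Reachable (f u) (f w) := by
      intro u w huw
      by_cases hu : u ∈ A
      · by_cases hw : w ∈ A
        · rw [hf u hu, hf w hw]
          exact Adj.reachable (show (T.induce (A : Set W)).Adj ⟨u, hu⟩ ⟨w, hw⟩ from huw)
        · have hw2 : w ∈ Lf := by
            by_contra h
            exact hw ((mA w).2 h)
          rw [mL] at hw2
          have h3 := hleaf w hw2.1 hw2.2 u huw.symm
          subst h3
          rw [hf' w hw, hf u hu]
      · have hu2 : u ∈ Lf := by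
          by_contra h
          exact hu ((mA u).2 h)
        rw [mL] at hu2
        have h3 := hleaf u hu2.1 hu2.2 w huw
        subst h3
        rw [hf' u hu, hf w hpA]
    have walk : ∀ u w, T.Walk u w → (T.induce (A : Set W)).Reachable (f u) (f w) := by
      intro u w h
      induction h with
      | nil => exact Reachable.refl _
      | cons h _ ih => exact (step _ _ h).trans ih
    have : Nonempty (A : Set W) := ⟨⟨p, hpA⟩⟩
    refine ⟨?_⟩
    rintro ⟨u, hu⟩ ⟨w, hw⟩
    obtain ⟨wk⟩ := hT.connected.preconnected u w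
    have := walk u w wk
    rwa [hf u hu, hf w hw] at this
  -- the map on `S`
  let φ : W → V := fun w => if w = p then x else if w = p' then z else y
  have φp : φ p = x := if_pos rfl
  have φp' : φ p' = z := (if_neg hpp'.ne').trans (if_pos rfl)
  have φq : φ q = y := (if_neg hpq.symm).trans (if_neg hp'q.ne')
  have mS : ∀ w, w ∈ S ↔ w = p ∨ w = p' ∨ w = q := fun w => by
    simp [hS]
  obtain ⟨ψ, ψS, ψH, ψinj, ψadj⟩ := h2 W V T F H (Fintype.card W - 2) hT.isAcyclic hMD S A φ hSA
    hA1 hcS hcA
    (by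
      intro w hw
      rw [mS] at hw
      rcases hw with rfl | rfl | rfl
      · rw [φp]; exact hx
      · rw [φp']; exact hz
      · rw [φq]; exact hy)
    (by
      intro u hu w hw huw
      rw [mS] at hu hw
      rcases hu with rfl | rfl | rfl <;> rcases hw with rfl | rfl | rfl <;>
        simp only [φp, φp', φq] at huw <;>
        first
        | rfl
        | exact absurd huw hxz.ne
        | exact absurd huw hxz.ne'
        | exact absurd huw hxy
        | exact absurd huw hxy.symm
        | exact absurd huw hzy.ne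
        | exact absurd huw hzy.ne')
    (by
      intro u hu w hw huw
      rw [mS] at hu hw
      rcases hu with rfl | rfl | rfl <;> rcases hw with rfl | rfl | rfl <;>
        simp only [φp, φp', φq] <;>
        first
        | exact absurd huw (T.loopless.irrefl _)
        | exact hxz
        | exact hxz.symm
        | exact hzy
        | exact hzy.symm
        | exact absurd huw hnpq
        | exact absurd huw.symm hnpq)
  have ψp : ψ p = x := (ψS p ((mS p).2 (Or.inl rfl))).trans φp
  have ψq : ψ q = y := (ψS q ((mS q).2 (Or.inr (Or.inr rfl)))).trans φq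
  -- free neighbours of `x`
  obtain ⟨I, hIH, hIadj, hIcard⟩ := hMD x hx
  set U : Finset V := A.image ψ with hU
  have hUcard : U.card = A.card := Finset.card_image_of_injOn (fun u hu w hw h =>
    ψinj u hu w hw h)
  have hxU : x ∈ U := Finset.mem_image.2 ⟨p, hpA, ψp⟩
  have hyU : y ∈ U := Finset.mem_image.2 ⟨q, hqA, ψq⟩
  have hfree : Lf.card ≤ (I \ U).card := by
    have e1 : I \ U = I \ (U \ {x, y}) := by
      ext v
      simp only [Finset.mem_sdiff, Finset.mem_insert, Finset.mem_singleton, not_and, not_not]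
      constructor
      · rintro ⟨h3, h4⟩
        exact ⟨h3, fun h5 => absurd h5 h4⟩
      · rintro ⟨h3, h4⟩
        refine ⟨h3, fun h5 => ?_⟩
        rcases h4 h5 with rfl | rfl
        · exact F.loopless.irrefl _ (hIadj _ h3)
        · exact hnxy (hIadj _ h3)
    have e2 : (U \ {x, y}).card + 2 = U.card := by
      have h3 : ({x, y} : Finset V) ⊆ U := by
        intro v hv
        simp only [Finset.mem_insert, Finset.mem_singleton] at hv
        rcases hv with rfl | rfl
        · exact hxU
        · exact hyU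
      have h4 := Finset.card_sdiff_add_card_eq_card h3
      rw [Finset.card_pair hxy] at h4
      exact h4
    rw [e1]
    have e3 := Finset.le_card_sdiff (U \ {x, y}) I
    omega
  have hemb : Nonempty ({w // w ∈ Lf} ↪ {v // v ∈ I \ U}) := by
    apply Function.Embedding.nonempty_of_card_le
    rw [Fintype.card_coe, Fintype.card_coe]
    exact hfree
  obtain ⟨g⟩ := hemb
  let Ψ : W → V := fun w => if h : w ∈ Lf then (g ⟨w, h⟩ : V) else ψ w
  have ΨL : ∀ w (h : w ∈ Lf), Ψ w = g ⟨w, h⟩ := fun w h => dif_pos h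
  have ΨA : ∀ w, w ∉ Lf → Ψ w = ψ w := fun w h => dif_neg h
  have gI : ∀ w (h : w ∈ Lf), (g ⟨w, h⟩ : V) ∈ I ∧ (g ⟨w, h⟩ : V) ∉ U := fun w h =>
    Finset.mem_sdiff.1 (g ⟨w, h⟩).2
  have hpL : p ∉ Lf := (mA p).1 hpA
  have Ψinj : Function.Injective Ψ := by
    intro u w huw
    by_cases hu : u ∈ Lf
    · by_cases hw : w ∈ Lf
      · rw [ΨL u hu, ΨL w hw] at huw
        have h3 := g.injective (Subtype.ext huw)
        exact congrArg Subtype.val h3
      · rw [ΨL u hu, ΨA w hw] at huw
        exact absurd (Finset.mem_image.2 ⟨w, (mA w).2 hw, huw.symm⟩) (gI u hu).2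
    · by_cases hw : w ∈ Lf
      · rw [ΨL w hw, ΨA u hu] at huw
        exact absurd (Finset.mem_image.2 ⟨u, (mA u).2 hu, huw⟩) (gI w hw).2
      · rw [ΨA u hu, ΨA w hw] at huw
        exact ψinj u ((mA u).2 hu) w ((mA w).2 hw) huw
  have Ψadj : ∀ {u w}, T.Adj u w → F.Adj (Ψ u) (Ψ w) := by
    intro u w huw
    by_cases hu : u ∈ Lf
    · have hu2 := (mL u).1 hu
      have h3 := hleaf u hu2.1 hu2.2 w huw
      subst h3
      rw [ΨL u hu, ΨA w hpL, ψp]
      exact (hIadj _ (gI u hu).1).symm
    · by_cases hw : w ∈ Lf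
      · have hw2 := (mL w).1 hw
        have h3 := hleaf w hw2.1 hw2.2 u huw.symm
        subst h3
        rw [ΨL w hw, ΨA u hpL, ψp]
        exact hIadj _ (gI w hw).1
      · rw [ΨA u hu, ΨA w hw]
        exact ψadj u ((mA u).2 hu) w ((mA w).2 hw) huw
  exact ⟨⟨⟨Ψ, Ψadj⟩, Ψinj⟩⟩

end Pool.Agent.Helper90.CT
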